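import Pool.Agent.H258Z.Cogrowth.Main

/-!
A subgroup of a free group of finite rank that is not finitely generated and has a rational
cogrowth series.
-/

set_option autoImplicit false

namespace Pool.Agent.Results.MP_8eb3db_al.Counterexample

open Pool.Agent.H258Z.Cogrowth

/-- For every `m ≥ 2 ^ 23` the free group of rank `m` has a subgroup `H` that is not finitely
generated, while the series whose `n`-th coefficient is the number of elements of `H` of reduced
word length `n` is rational. -/
theorem result (m : ℕ) (hm : 2 ^ 23 ≤ m) :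
    ∃ H : Subgroup (FreeGroup (Fin m)), ¬ H.FG ∧
      ∃ P Q : Polynomial ℚ, Q ≠ 0 ∧
        (Q : PowerSeries ℚ) * PowerSeries.mk (fun n : ℕ =>
          (Set.ncard {h : FreeGroup (Fin m) | h ∈ H ∧ FreeGroup.norm h = n} : ℚ)) =
        (P : PowerSeries ℚ) := by
  obtain ⟨K, hK⟩ : ∃ K : ℕ, K = 2097152 := ⟨_, rfl⟩
  obtain ⟨e⟩ : Nonempty (((Fin 3 × Fin K) ⊕ Fin K) ↪ Fin m) := by
    apply Function.Embedding.nonempty_of_card_le
    rw [Fintype.card_sum, Fintype.card_prod, Fintype.card_fin, Fintype.card_fin, Fintype.card_fin]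
    omega
  obtain ⟨H, h1, h2⟩ := exists_subgroup hK.ge e.injective
  refine ⟨H, h1, 1 - 64 * Polynomial.X, 1 - 64 * Polynomial.X - 2 * Polynomial.X ^ 2, ?_, ?_⟩
  · intro h
    have := congrArg (Polynomial.eval 0) h
    simp at this
  · have h3 := congrArg (PowerSeries.map (Int.castRingHom ℚ)) h2
    have h4 : PowerSeries.map (Int.castRingHom ℚ) (gf (H : Set (FreeGroup (Fin m)))) =
        PowerSeries.mk (fun n : ℕ =>
          (Set.ncard {h : FreeGroup (Fin m) | h ∈ H ∧ FreeGroup.norm h = n} : ℚ)) := by
      ext n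
      simp [gf]
    rw [map_mul, h4] at h3
    simp only [map_sub, map_mul, map_pow, map_one, PowerSeries.map_X, map_ofNat] at h3
    have c1 : ((1 - 64 * Polynomial.X - 2 * Polynomial.X ^ 2 : Polynomial ℚ) : PowerSeries ℚ) =
        1 - 64 * PowerSeries.X - 2 * PowerSeries.X ^ 2 := by
      rw [← Polynomial.coeToPowerSeries.ringHom_apply]
      simp only [map_sub, map_mul, map_pow, map_one, map_ofNat,
        Polynomial.coeToPowerSeries.ringHom_apply, Polynomial.coe_X]
    have c2 : ((1 - 64 * Polynomial.X : Polynomial ℚ) : PowerSeries ℚ) =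
        1 - 64 * PowerSeries.X := by
      rw [← Polynomial.coeToPowerSeries.ringHom_apply]
      simp only [map_sub, map_mul, map_one, map_ofNat,
        Polynomial.coeToPowerSeries.ringHom_apply, Polynomial.coe_X]
    rw [c1, c2]
    exact h3

end Pool.Agent.Results.MP_8eb3db_al.Counterexample
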